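import Pool.Agent.Helper98.EY.StmtsB

/-!
# ADJ: the size of the first reservoir can be changed
-/

namespace Pool.Agent.Helper98.EX

open Finset

private lemma adj_vp_nonneg {r l : ℕ → ℝ} (hp : ∀ x, 0 < r x ∧ 0 ≤ l x) (z y : ℕ) :
    0 ≤ vp r l z y := by
  unfold vp RR
  exact div_nonneg (Finset.prod_nonneg fun b _ => div_nonneg (hp b).2 (hp b).1.le) (hp _).1.le

private lemma adj_atb_nonneg {r l : ℕ → ℝ} (hp : ∀ x, 0 < r x ∧ 0 ≤ l x) {η0 : ℝ}
    (h0 : 0 < η0) (w a y : ℕ) : 0 ≤ atb r l η0 w a y := by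
  unfold atb
  exact Finset.sum_nonneg fun d _ => mul_nonneg (pow_nonneg (by linarith) _)
    (adj_vp_nonneg hp _ _)

private lemma adj_atb_le {r l : ℕ → ℝ} {η0 θA : ℝ}
    (h0 : 0 < η0) (hθ : 0 ≤ θA) (w a y : ℕ) (hb : ∀ z, a ≤ z → z ≤ y → vp r l z y ≤ θA) :
    atb r l η0 w a y ≤ w * (1 + η0) ^ w * θA := by
  unfold atb
  have h1 : ∀ d ∈ Finset.range (min w (y + 1 - a)),
      (1 + η0) ^ (d + 1) * vp r l (y - d) y ≤ (1 + η0) ^ w * θA := by
    intro d hd
    rw [Finset.mem_range, lt_min_iff] at hd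
    have h2 : vp r l (y - d) y ≤ θA := hb _ (by omega) (by omega)
    have h3 : (1 + η0) ^ (d + 1) ≤ (1 + η0) ^ w :=
      pow_le_pow_right₀ (by linarith) (by omega)
    calc (1 + η0) ^ (d + 1) * vp r l (y - d) y ≤ (1 + η0) ^ (d + 1) * θA :=
          mul_le_mul_of_nonneg_left h2 (pow_nonneg (by linarith) _)
      _ ≤ (1 + η0) ^ w * θA := mul_le_mul_of_nonneg_right h3 hθ
  have h4 := Finset.sum_le_card_nsmul _ _ _ h1
  rw [Finset.card_range, nsmul_eq_mul] at h4
  have h5 : ((min w (y + 1 - a) : ℕ) : ℝ) ≤ w := by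
    exact_mod_cast min_le_left _ _
  have h6 : 0 ≤ (1 + η0) ^ w * θA := mul_nonneg (pow_nonneg (by linarith) _) hθ
  calc _ ≤ _ := h4
    _ ≤ (w : ℝ) * ((1 + η0) ^ w * θA) := mul_le_mul_of_nonneg_right h5 h6
    _ = _ := by ring

theorem st_ADJ : ST_ADJ := by
  intro r l L q0 Q1 d s1 θ θA D η0 ell hp hV hV1 he1 hg1 hη0 hη1 hθA hθ hwQ hell1 hell2
    hnear hshort hcell hstr s hs
  have hθ0 : 0 ≤ θ := le_trans hθA hθ
  have hw1 := hV.w1
  have hpw : 0 ≤ (L.w : ℝ) * (1 + η0) ^ L.w :=
    mul_nonneg (Nat.cast_nonneg _) (pow_nonneg (by linarith) _)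
  have hell0 : 0 ≤ ell := le_trans (mul_nonneg (by positivity) (mul_nonneg hpw hθ0)) hell1
  have e0 : L.e 0 = L.A := hV.e0
  have c11 := hV.cell1 1 le_rfl hV1
  rw [Nat.sub_self, e0] at c11
  -- facts about the new data
  have hA' : (L.adj s).A = L.A := rfl
  have hx' : (L.adj s).x0 = L.x0 := rfl
  have hw' : (L.adj s).w = L.w := rfl
  have hV' : (L.adj s).V = L.V := rfl
  have hg' : (L.adj s).g = L.g := rfl
  have he1' : (L.adj s).e 1 = L.g 1 + 5 * L.w + s := by
    show (if (1 : ℕ) = 1 then L.g 1 + 5 * L.w + s else L.e 1) = _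
    rw [if_pos rfl]
  have he' : ∀ v, v ≠ 1 → (L.adj s).e v = L.e v := by
    intro v hv
    show (if v = 1 then L.g 1 + 5 * L.w + s else L.e v) = _
    rw [if_neg hv]
  have hG' : ∀ v, (L.adj s).G v = L.G v := fun v => rfl
  have hst' : ∀ v, v ≠ 2 → (L.adj s).st v = L.st v := by
    intro v hv
    unfold BD.st
    rw [hA']
    by_cases hv1 : v - 1 = 1
    · exfalso; omega
    · rw [he' _ hv1]
  have hst2 : L.st 2 = L.g 1 + 5 * L.w + s1 - 1 := by
    unfold BD.st
    show max L.A (L.e 1 - 1) = _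
    rw [he1]
    apply max_eq_right
    omega
  have hst2' : (L.adj s).st 2 = L.g 1 + 5 * L.w + s - 1 := by
    unfold BD.st
    show max L.A ((L.adj s).e 1 - 1) = _
    rw [he1']
    apply max_eq_right
    omega
  -- G 2 ≤ x0
  have hGx : ∀ v, 1 ≤ v → v ≤ L.V + 1 → L.G v ≤ L.x0 := by
    have hmono : ∀ k, ∀ v, 1 ≤ v → v + k = L.V → L.e v + 4 * L.w ≤ L.x0 := by
      intro k
      induction k with
      | zero =>
        intro v h1 h2
        have := hV.last
        rw [show v = L.V by omega]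
        exact this
      | succ k ih =>
        intro v h1 h2
        have h3 := ih (v + 1) (by omega) (by omega)
        have h4 := hV.cell1 (v + 1) (by omega) (by omega)
        have h5 := hV.cell2 (v + 1) (by omega) (by omega)
        rw [Nat.add_sub_cancel] at h4
        omega
    intro v h1 h2
    unfold BD.G
    by_cases hv : v ≤ L.V
    · rw [if_pos hv]
      have h3 := hmono (L.V - v) v h1 (by omega)
      have h5 := hV.cell2 v h1 hv
      omega
    · rw [if_neg hv]
  refine ⟨⟨hw1, ?_, ?_, ?_, ?_⟩, ⟨?_, ?_, ?_, ?_⟩, ?_⟩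
  · rw [he' 0 (by omega), hA', e0]
  · intro v h1 h2
    rw [hV'] at h2
    rw [hw', hg']
    have h3 := hV.cell1 v h1 h2
    by_cases hv : v - 1 = 1
    · rw [hv, he1']
      rw [hv, he1] at h3
      omega
    · rw [he' _ hv]
      exact h3
  · intro v h1 h2
    rw [hV'] at h2
    rw [hw', hg']
    have h3 := hV.cell2 v h1 h2
    by_cases hv : v = 1
    · rw [hv, he1']
      omega
    · rw [he' _ hv]
      exact h3
  · rw [hV', hw', hx']
    have h3 := hV.last
    by_cases hv : L.V = 1
    · rw [hv, he1']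
      rw [hv, he1] at h3
      omega
    · rw [he' _ hv]
      exact h3
  · intro v h1 h2
    rw [hV'] at h2
    exact (hcell v h1 h2).1
  · intro v h1 h2 z y hz hzy hy
    rw [hV'] at h2
    rw [hw', hG'] at hy
    have hgx := hGx v h1 h2
    have hstA : L.A ≤ (L.adj s).st v := by
      unfold BD.st
      exact le_max_left _ _
    by_cases hv : v = 2
    · subst hv
      by_cases hz2 : L.st 2 ≤ z
      · exact not_lt.1 ((hstr 2 h1 h2).1 z y hz2 hzy hy)
      · by_contra hcon
        rw [not_le] at hcon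
        have h3 := hshort z y (le_trans hstA hz) hzy (by omega) hcon
        rw [hst2] at hz2
        have h4 := (hnear z y (le_trans hstA hz) hzy (by omega)).1
        linarith
    · rw [hst' v hv] at hz
      exact not_lt.1 ((hstr v h1 h2).1 z y hz hzy hy)
  · intro v h1 h2
    rw [hV'] at h2
    rw [hw', hG']
    by_cases hv : v = 2
    · subst hv
      have hold := (hstr 2 h1 h2).2
      set M := L.G 2 - 3 * L.w with hM
      rw [hst2']
      rw [hst2] at hold
      set a' := L.g 1 + 5 * L.w + s - 1 with ha'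
      set a := L.g 1 + 5 * L.w + s1 - 1 with ha
      have haa : a' ≤ a := by omega
      have hAa' : L.A ≤ a' := by omega
      set c := min M (a + L.w) with hc
      -- split
      have hsub : Finset.Ico a' M ⊆ Finset.Ico a' (a + L.w) ∪ Finset.Ico (a + L.w) M := by
        intro y hy
        rw [Finset.mem_Ico] at hy
        rw [Finset.mem_union, Finset.mem_Ico, Finset.mem_Ico]
        omega
      have hs1 : ∑ y ∈ Finset.Ico a' M, atb r l η0 L.w a' y ≤
          ∑ y ∈ Finset.Ico a' (a + L.w), atb r l η0 L.w a' y +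
          ∑ y ∈ Finset.Ico (a + L.w) M, atb r l η0 L.w a' y := by
        refine le_trans (Finset.sum_le_sum_of_subset_of_nonneg hsub
          (fun y _ _ => adj_atb_nonneg hp hη0 _ _ _)) ?_
        rw [Finset.sum_union]
        rw [Finset.disjoint_left]
        intro y hy hy2
        rw [Finset.mem_Ico] at hy hy2
        omega
      have hs2 : ∑ y ∈ Finset.Ico (a + L.w) M, atb r l η0 L.w a' y ≤ 2 * ell := by
        refine le_trans ?_ hold
        have h3 : ∑ y ∈ Finset.Ico (a + L.w) M, atb r l η0 L.w a' y =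
            ∑ y ∈ Finset.Ico (a + L.w) M, atb r l η0 L.w a y := by
          apply Finset.sum_congr rfl
          intro y hy
          rw [Finset.mem_Ico] at hy
          unfold atb
          rw [min_eq_left (by omega), min_eq_left (by omega)]
        rw [h3]
        apply Finset.sum_le_sum_of_subset_of_nonneg
        · intro y hy
          rw [Finset.mem_Ico] at hy ⊢
          omega
        · intro y _ _
          exact adj_atb_nonneg hp hη0 _ _ _
      have hs3 : ∑ y ∈ Finset.Ico a' (a + L.w), atb r l η0 L.w a' y ≤ ell := by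
        refine le_trans ?_ hell2
        have h3 : ∀ y ∈ Finset.Ico a' (a + L.w), atb r l η0 L.w a' y ≤
            L.w * (1 + η0) ^ L.w * θA := by
          intro y hy
          rw [Finset.mem_Ico] at hy
          apply adj_atb_le hη0 hθA
          intro z hz hzy
          exact (hnear z y (le_trans hAa' hz) hzy (by omega)).1
        refine le_trans (Finset.sum_le_card_nsmul _ _ _ h3) ?_
        rw [nsmul_eq_mul, Nat.card_Ico]
        apply mul_le_mul_of_nonneg_right _ (mul_nonneg hpw hθA)
        have h4 : a + L.w - a' ≤ d + s1 + q0 + 30 * L.w := by omega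
        have h5 : ((a + L.w - a' : ℕ) : ℝ) ≤ ((d + s1 + q0 + 30 * L.w : ℕ) : ℝ) := by
          exact_mod_cast h4
        push_cast at h5
        linarith
      linarith
    · rw [hst' v hv]
      have := (hstr v h1 h2).2
      linarith
  · intro v h1 h2
    rw [hV'] at h2
    rw [hg', hw']
    by_cases hv : v = 1
    · subst hv
      refine ⟨θA, hθ, ?_, ?_⟩
      · rw [he1']
        refine le_trans ?_ hell2
        apply mul_le_mul_of_nonneg_right _ (mul_nonneg hpw hθA)
        push_cast
        have h3 : (s : ℝ) ≤ s1 := by exact_mod_cast hs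
        have h4 : (0 : ℝ) ≤ d := Nat.cast_nonneg _
        have h5 : (0 : ℝ) ≤ q0 := Nat.cast_nonneg _
        have h6 : (0 : ℝ) ≤ L.w := Nat.cast_nonneg _
        linarith
      · intro z y hz hzy hy
        rw [he1'] at hy
        exact (hnear z y (by omega) hzy (by omega)).2 (by omega)
    · refine ⟨θ, le_rfl, ?_, ?_⟩
      · rw [he' v hv]
        refine le_trans ?_ hell1
        apply mul_le_mul_of_nonneg_right _ (mul_nonneg hpw hθ0)
        have h3 := (hcell v h1 h2).2.1 (by omega)
        have h4 : (L.e v : ℝ) ≤ L.g v + Q1 := by exact_mod_cast h3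
        have h6 : (0 : ℝ) ≤ L.w := Nat.cast_nonneg _
        linarith
      · intro z y hz hzy hy
        rw [he' v hv] at hy
        exact not_lt.1 ((hcell v h1 h2).2.2 z y hz hzy hy)
  · unfold BD.mis
    have h0' : (L.adj 0).e 1 = L.g 1 + 5 * L.w + 0 := by
      show (if (1 : ℕ) = 1 then L.g 1 + 5 * L.w + 0 else L.e 1) = _
      rw [if_pos rfl]
    have h0'' : ∀ v, v ≠ 1 → (L.adj 0).e v = L.e v := by
      intro v hv
      show (if v = 1 then L.g 1 + 5 * L.w + 0 else L.e v) = _
      rw [if_neg hv]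
    show (L.A - L.A) + ∑ u ∈ Finset.Icc 1 L.V, ((L.adj s).e u - L.g u) =
      (L.A - L.A) + ∑ u ∈ Finset.Icc 1 L.V, ((L.adj 0).e u - L.g u) + s
    have h1m : (1 : ℕ) ∈ Finset.Icc 1 L.V := by
      rw [Finset.mem_Icc]
      exact ⟨le_rfl, hV1⟩
    rw [← Finset.add_sum_erase _ _ h1m, ← Finset.add_sum_erase (Finset.Icc 1 L.V)
      (fun u => (L.adj 0).e u - L.g u) h1m]
    have h3 : ∑ u ∈ (Finset.Icc 1 L.V).erase 1, ((L.adj s).e u - L.g u) =
        ∑ u ∈ (Finset.Icc 1 L.V).erase 1, ((L.adj 0).e u - L.g u) := by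
      apply Finset.sum_congr rfl
      intro u hu
      rw [Finset.mem_erase] at hu
      rw [he' u hu.1, h0'' u hu.1]
    rw [h3, he1', h0']
    omega

end Pool.Agent.Helper98.EX
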